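import Pool.Agent.Q280.QuadFin

set_option autoImplicit false

namespace Pool.Agent.Results.MP_0815b2_gt.DiameterBound

open Set
open Pool.Agent.Q140.QUAD (Body P)
open Pool.Agent.Q280

/-- The unit vector with direction angle `t`; the plane is `ℂ`. -/
noncomputable def dir (t : ℝ) : ℂ := ⟨Real.cos t, Real.sin t⟩

/-- The boundary point of `F` on the ray with direction angle `t` from the point `o`. -/
noncomputable def bd (F : Set ℂ) (o : ℂ) (t : ℝ) : ℂ :=
  o + ((sSup {r : ℝ | o + (r : ℂ) * dir t ∈ F} : ℝ) : ℂ) * dir t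

/-- The length (supremum of the lengths of inscribed polygonal lines) of the arc of the boundary
which is run through counterclockwise from `bd F o s` to `bd F o t`, `s ≤ t ≤ s + 2π`. -/
noncomputable def arcLength (F : Set ℂ) (o : ℂ) (s t : ℝ) : ENNReal :=
  eVariationOn (bd F o) (Icc s t)

/-- The points `a`, `b`, `c`, `d` lie on the boundary of `F` in this counterclockwise order and cut
it into four arcs of equal length. -/
def Quadrisect (F : Set ℂ) (a b c d : ℂ) : Prop :=
  ∃ o ∈ interior F, ∃ t₀ t₁ t₂ t₃ : ℝ, t₀ < t₁ ∧ t₁ < t₂ ∧ t₂ < t₃ ∧ t₃ < t₀ + 2 * Real.pi ∧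
    bd F o t₀ = a ∧ bd F o t₁ = b ∧ bd F o t₂ = c ∧ bd F o t₃ = d ∧
    arcLength F o t₀ t₁ = arcLength F o t₁ t₂ ∧ arcLength F o t₁ t₂ = arcLength F o t₂ t₃ ∧
    arcLength F o t₂ t₃ = arcLength F o t₃ (t₀ + 2 * Real.pi)

/-- the counterclockwise case -/
theorem half (F : Set ℂ) (hc : IsCompact F) (hconv : Convex ℝ F) (a b c d : ℂ)
    (h : Quadrisect F a b c d)
    (hperp : (a - c).re * (b - d).re + (a - c).im * (b - d).im = 0) :
    Metric.diam F ≤ dist a c + dist b d := by
  obtain ⟨o, ho, t₀, t₁, t₂, t₃, h1, h2, h3, h4, rfl, rfl, rfl, rfl, e1, e2, e3⟩ := h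
  have hF : Body F o := ⟨hc, hconv, ho⟩
  have htop := QuadFin.perimeter_ne_top F o hF t₀
  have hpi := Real.pi_pos
  have g1 := eVariationOn.Icc_add_Icc (P F o) (s := univ) h1.le (h2.trans (h3.trans h4)).le
    (mem_univ t₁)
  have g2 := eVariationOn.Icc_add_Icc (P F o) (s := univ) h2.le (h3.trans h4).le (mem_univ t₂)
  have g3 := eVariationOn.Icc_add_Icc (P F o) (s := univ) h3.le h4.le (mem_univ t₃)
  simp only [univ_inter] at g1 g2 g3
  have e1' : eVariationOn (P F o) (Icc t₀ t₁) = eVariationOn (P F o) (Icc t₁ t₂) := e1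
  have e2' : eVariationOn (P F o) (Icc t₁ t₂) = eVariationOn (P F o) (Icc t₂ t₃) := e2
  have e3' : eVariationOn (P F o) (Icc t₂ t₃) =
    eVariationOn (P F o) (Icc t₃ (t₀ + 2 * Real.pi)) := e3
  have hfin : eVariationOn (P F o) (Icc t₀ t₁) ≠ ⊤ := by
    intro hh
    rw [hh, top_add] at g1
    exact htop g1.symm
  set l : ℝ := (eVariationOn (P F o) (Icc t₀ t₁)).toReal with hl
  have v1 : eVariationOn (P F o) (Icc t₀ t₁) = ENNReal.ofReal l :=
    (ENNReal.ofReal_toReal hfin).symm
  have v2 : eVariationOn (P F o) (Icc t₁ t₂) = ENNReal.ofReal l := by rw [← e1', v1]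
  have v3 : eVariationOn (P F o) (Icc t₂ t₃) = ENNReal.ofReal l := by rw [← e2', v2]
  have v4 : eVariationOn (P F o) (Icc t₃ (t₀ + 2 * Real.pi)) = ENNReal.ofReal l := by
    rw [← e3', v3]
  have hl0 : 0 ≤ l := ENNReal.toReal_nonneg
  have htot : eVariationOn (P F o) (Icc t₀ (t₀ + 2 * Real.pi)) = ENNReal.ofReal (4 * l) := by
    rw [← g1, ← g2, ← g3, v1, v2, v3, v4, ← ENNReal.ofReal_add hl0 hl0,
      ← ENNReal.ofReal_add hl0 (by linarith), ← ENNReal.ofReal_add hl0 (by linarith)]
    congr 1
    ring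
  have hdiam : ∀ x ∈ F, ∀ y ∈ F, dist x y ≤ 2 * l := by
    intro x hx y hy
    have := QuadDiam.two_diam_le Pool.Agent.Q140.QUAD.TaskRad_proof F o hF t₀ x y hx hy
    rw [htot, ENNReal.ofReal_le_ofReal_iff (by linarith)] at this
    linarith
  rcases eq_or_lt_of_le hl0 with h0 | h0
  · apply Metric.diam_le_of_forall_dist_le (by positivity)
    intro x hx y hy
    have := hdiam x hx y hy
    have h5 : (0 : ℝ) ≤ dist (bd F o t₀) (bd F o t₂) := dist_nonneg
    have h6 : (0 : ℝ) ≤ dist (bd F o t₁) (bd F o t₃) := dist_nonneg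
    linarith
  · have key := QuadCore.core F o hF t₀ t₁ t₂ t₃ l h1 h2 h3 h4 h0 v1 v2 v3 v4 hperp
    apply Metric.diam_le_of_forall_dist_le (by positivity)
    intro x hx y hy
    exact (hdiam x hx y hy).trans key

/-- **Perpendicular perimeter-quadrisecting chords and the diameter.** Let `F` be a plane convex
figure. The function `bd F o`, `o` an interior point, describes the boundary of `F`, each boundary
point being taken exactly once in a period, and the length of the boundary is finite. If the points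
`a`, `b`, `c`, `d` cut the boundary, in this cyclic order (one or the other orientation), into four
arcs of equal length and the chords `[a, c]` and `[b, d]` are perpendicular, then the sum of their
lengths is at least the diameter of `F`. -/
theorem result (F : Set ℂ) (hc : IsCompact F) (hconv : Convex ℝ F)
    (_hint : (interior F).Nonempty) :
    (∀ o ∈ interior F, ∀ s : ℝ, (∀ t, bd F o t ∈ frontier F) ∧
      (∀ x ∈ frontier F, ∃! t, t ∈ Ico s (s + 2 * Real.pi) ∧ bd F o t = x) ∧
      arcLength F o s (s + 2 * Real.pi) ≠ ⊤) ∧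
    ∀ a b c d : ℂ, Quadrisect F a b c d ∨ Quadrisect F a d c b →
      (a - c).re * (b - d).re + (a - c).im * (b - d).im = 0 →
      Metric.diam F ≤ dist a c + dist b d := by
  refine ⟨fun o ho s => ⟨fun t => QuadFin.P_mem_frontier F o ⟨hc, hconv, ho⟩ t,
    fun x hx => QuadFin.exists_unique_param F o ⟨hc, hconv, ho⟩ s x hx,
    QuadFin.perimeter_ne_top F o ⟨hc, hconv, ho⟩ s⟩, ?_⟩
  intro a b c d h hperp
  rcases h with h | h
  · exact half F hc hconv a b c d h hperp
  · rw [dist_comm b d]
    apply half F hc hconv a d c b h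
    simp only [Complex.sub_re, Complex.sub_im] at hperp ⊢
    linarith

end Pool.Agent.Results.MP_0815b2_gt.DiameterBound
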